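import Pool.Agent.helper36.PT.Spec
import Pool.Agent.helper47.RA.Num

/-! Row pt:GCS (MP_ad8ced_nt). -/

set_option autoImplicit false

namespace Pool.Agent.PT

open Finset Pool.Agent.helper71.AA Pool.Agent.helper47.RA

lemma GCS_cnt (A f : ℕ) (hA : 1 ≤ A) (hf : 0 < f) :
    f * ((Ico A (2 * A)).filter (fun d => f ∣ d)).card ≤ A + f := by
  have h1 := Nat.Ioc_filter_dvd_card_eq_div (2 * A - 1) f
  have h2 := Nat.Ioc_filter_dvd_card_eq_div (A - 1) f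
  have h3 : (Ioc 0 (2 * A - 1)).filter (fun x => f ∣ x) =
      (Ioc 0 (A - 1)).filter (fun x => f ∣ x) ∪ (Ico A (2 * A)).filter (fun d => f ∣ d) := by
    rw [← Finset.filter_union]
    congr 1
    ext x
    simp only [mem_Ioc, mem_union, mem_Ico]
    omega
  have h4 : Disjoint ((Ioc 0 (A - 1)).filter (fun x => f ∣ x))
      ((Ico A (2 * A)).filter (fun d => f ∣ d)) := by
    rw [Finset.disjoint_left]
    intro x hx hx'
    simp only [mem_filter, mem_Ioc, mem_Ico] at hx hx'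
    omega
  rw [h3, Finset.card_union_of_disjoint h4, h2] at h1
  have h5 : f * ((2 * A - 1) / f) ≤ 2 * A - 1 := Nat.mul_div_le _ _
  have h6 : A - 1 < f * ((A - 1) / f) + f := by
    have := Nat.lt_mul_div_succ (A - 1) hf
    rw [Nat.mul_succ] at this
    exact this
  rw [← h1, Nat.mul_add] at h5
  omega

lemma GCS_sum (n A : ℕ) (hn : 0 < n) (hA : 1 ≤ A) :
    ∑ d ∈ Ico A (2 * A), n.gcd d ≤ 3 * A * n.divisors.card := by
  have h1 : ∀ d ∈ Ico A (2 * A), n.gcd d ≤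
      ∑ f ∈ n.divisors.filter (fun f => f < 2 * A), if f ∣ d then f else 0 := by
    intro d hd
    rw [mem_Ico] at hd
    have hmem : n.gcd d ∈ n.divisors.filter (fun f => f < 2 * A) := by
      rw [mem_filter, Nat.mem_divisors]
      refine ⟨⟨Nat.gcd_dvd_left _ _, by omega⟩, ?_⟩
      have := Nat.gcd_le_right n (show 0 < d by omega)
      omega
    have h := Finset.single_le_sum (f := fun f => if f ∣ d then f else 0)
      (fun _ _ => Nat.zero_le _) hmem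
    simp only [Nat.gcd_dvd_right, if_true] at h
    exact h
  refine (Finset.sum_le_sum h1).trans ?_
  rw [Finset.sum_comm]
  have h2 : ∀ f ∈ n.divisors.filter (fun f => f < 2 * A),
      (∑ d ∈ Ico A (2 * A), if f ∣ d then f else 0) ≤ 3 * A := by
    intro f hf
    rw [mem_filter, Nat.mem_divisors] at hf
    have hf0 : 0 < f := Nat.pos_of_dvd_of_pos hf.1.1 hn
    rw [← Finset.sum_filter, Finset.sum_const, smul_eq_mul, mul_comm]
    have := GCS_cnt A f hA hf0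
    omega
  refine (Finset.sum_le_sum h2).trans ?_
  rw [Finset.sum_const, smul_eq_mul, mul_comm]
  exact Nat.mul_le_mul_left _ (Finset.card_le_card (Finset.filter_subset _ _))

lemma GCS_dvd (d d' : ℕ) (k k' : ℤ) :
    (Del d d' k k').natAbs.gcd d ∣ (k.natAbs * d').gcd d := by
  apply Nat.dvd_gcd _ (Nat.gcd_dvd_right _ _)
  have e1 : (((Del d d' k k').natAbs.gcd d : ℕ) : ℤ) ∣ Del d d' k k' := by
    rw [Int.natCast_dvd]
    exact Nat.gcd_dvd_left _ _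
  have e2 : (((Del d d' k k').natAbs.gcd d : ℕ) : ℤ) ∣ (d : ℤ) :=
    Int.natCast_dvd_natCast.mpr (Nat.gcd_dvd_right _ _)
  have e3 : (d.gcd d' : ℤ) * Del d d' k k' = k * d' - k' * d := by
    have h1 : ((d.gcd d' * (d' / d.gcd d') : ℕ) : ℤ) = d' := by
      rw [Nat.mul_div_cancel' (Nat.gcd_dvd_right _ _)]
    have h2 : ((d.gcd d' * (d / d.gcd d') : ℕ) : ℤ) = d := by
      rw [Nat.mul_div_cancel' (Nat.gcd_dvd_left _ _)]
    rw [Nat.cast_mul] at h1 h2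
    unfold Del
    linear_combination k * h1 - k' * h2
  have e4 : (((Del d d' k k').natAbs.gcd d : ℕ) : ℤ) ∣ k * d' := by
    have h1 := (e1.mul_left (d.gcd d' : ℤ)).add (e2.mul_left k')
    rw [e3] at h1
    have h2 : k * (d' : ℤ) - k' * d + k' * d = k * d' := by ring
    rwa [h2] at h1
  rw [Int.natCast_dvd, Int.natAbs_mul, Int.natAbs_natCast] at e4
  exact e4

lemma GCS_dvd' (d d' : ℕ) (k k' : ℤ) :
    (Del d d' k k').natAbs.gcd d' ∣ (k'.natAbs * d).gcd d' := by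
  have h := GCS_dvd d' d k' k
  have e : (Del d' d k' k).natAbs = (Del d d' k k').natAbs := by
    have : Del d' d k' k = -Del d d' k k' := by
      unfold Del
      rw [Nat.gcd_comm d' d]
      ring
    rw [this, Int.natAbs_neg]
  rwa [e] at h

/-- the gcd factors -/
lemma GCS_gcd (d d₂ d₂' : ℕ) (k k' : ℤ) (h2 : 0 < d₂) (h2' : 0 < d₂') :
    Int.gcd (Del d₂ d₂' k k') (d * d₂.lcm d₂' : ℕ) ≤ (Del d₂ d₂' k k').natAbs.gcd d *
      ((k.natAbs * d₂').gcd d₂ * (k'.natAbs * d₂).gcd d₂') := by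
  rw [Int.gcd, Int.natAbs_natCast]
  by_cases hd : d = 0
  · subst hd
    rw [Nat.zero_mul]
    refine Nat.le_mul_of_pos_right _ (Nat.mul_pos (Nat.gcd_pos_of_pos_right _ h2)
      (Nat.gcd_pos_of_pos_right _ h2'))
  have hd0 : 0 < d := Nat.pos_of_ne_zero hd
  have p1 : 0 < (Del d₂ d₂' k k').natAbs.gcd d := Nat.gcd_pos_of_pos_right _ hd0
  have p2 : 0 < (k.natAbs * d₂').gcd d₂ := Nat.gcd_pos_of_pos_right _ h2
  have p3 : 0 < (k'.natAbs * d₂).gcd d₂' := Nat.gcd_pos_of_pos_right _ h2'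
  apply Nat.le_of_dvd (Nat.mul_pos p1 (Nat.mul_pos p2 p3))
  refine (Nat.gcd_mul_right_dvd_mul_gcd _ _ _).trans (mul_dvd_mul_left _ ?_)
  have h1 : (Del d₂ d₂' k k').natAbs.gcd (d₂.lcm d₂') ∣ (Del d₂ d₂' k k').natAbs.gcd (d₂ * d₂') :=
    Nat.gcd_dvd_gcd_of_dvd_right _ (Nat.lcm_dvd_mul _ _)
  refine h1.trans ((Nat.gcd_mul_right_dvd_mul_gcd _ _ _).trans (mul_dvd_mul (GCS_dvd _ _ _ _) (GCS_dvd' _ _ _ _)))

lemma GCS_card (H : ℕ) : (Kr H).card = 2 * H := by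
  unfold Kr
  rw [Finset.card_erase_of_mem (by simp), Int.card_Icc]
  omega

lemma GCS_mem {H : ℕ} {k : ℤ} (hk : k ∈ Kr H) : 0 < k.natAbs ∧ k.natAbs ≤ H := by
  unfold Kr at hk
  rw [mem_erase, mem_Icc] at hk
  omega

lemma GCS_del (d d' H B : ℕ) (k k' : ℤ) (hk : k.natAbs ≤ H) (hk' : k'.natAbs ≤ H) (hd : d < 2 * B)
    (hd' : d' < 2 * B) : (Del d d' k k').natAbs ≤ 4 * (H * B) := by
  unfold Del
  refine (Int.natAbs_sub_le _ _).trans ?_
  rw [Int.natAbs_mul, Int.natAbs_mul, Int.natAbs_natCast, Int.natAbs_natCast]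
  have h1 : k.natAbs * (d' / d.gcd d') ≤ H * (2 * B) :=
    Nat.mul_le_mul hk ((Nat.div_le_self _ _).trans hd'.le)
  have h2 : k'.natAbs * (d / d.gcd d') ≤ H * (2 * B) :=
    Nat.mul_le_mul hk' ((Nat.div_le_self _ _).trans hd.le)
  calc _ ≤ H * (2 * B) + H * (2 * B) := Nat.add_le_add h1 h2
    _ = 4 * (H * B) := by ring

theorem GCS : GCS_stmt := by
  intro eps heps
  obtain ⟨C, hC1, hC⟩ := card_divisors_le (eps / 4) (by positivity)
  have hC0 : 0 < C := lt_of_lt_of_le one_pos hC1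
  refine ⟨36 * C ^ 2 * 4 ^ (eps / 2), by positivity, ?_⟩
  intro X hX A B H hA hB hAX hBX hHX
  set M : ℝ := C * (4 * X ^ 2) ^ (eps / 4) with hM
  have hX0 : 0 < X := lt_of_lt_of_le one_pos hX
  have hM0 : 0 < M := by positivity
  -- divisor bound
  have hdiv : ∀ n : ℕ, 0 < n → n ≤ 4 * (H * B) → ((n.divisors.card : ℕ) : ℝ) ≤ M := by
    intro n hn hn4
    refine (hC n hn).trans ?_
    rw [hM]
    refine mul_le_mul_of_nonneg_left ?_ hC0.le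
    apply Real.rpow_le_rpow (Nat.cast_nonneg _) _ (by positivity)
    have h1 : (n : ℝ) ≤ ((4 * (H * B) : ℕ) : ℝ) := by exact_mod_cast hn4
    refine h1.trans ?_
    push_cast
    have h2 : (H : ℝ) * B ≤ X * X := mul_le_mul hHX hBX (Nat.cast_nonneg _) hX0.le
    nlinarith
  have hsum : ∀ n T : ℕ, 0 < n → n ≤ 4 * (H * B) → 1 ≤ T →
      ∑ d ∈ Ico T (2 * T), ((n.gcd d : ℕ) : ℝ) ≤ 3 * T * M := by
    intro n T hn hn4 hT
    have h1 := GCS_sum n T hn hT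
    have h2 : ((∑ d ∈ Ico T (2 * T), n.gcd d : ℕ) : ℝ) ≤ ((3 * T * n.divisors.card : ℕ) : ℝ) := by
      exact_mod_cast h1
    rw [Nat.cast_sum] at h2
    refine h2.trans ?_
    push_cast
    exact mul_le_mul_of_nonneg_left (hdiv n hn hn4) (by positivity)
  -- termwise bound
  have hterm : ∀ d ∈ Ico A (2 * A), ∀ d₂ ∈ Ico B (2 * B), ∀ k ∈ Kr H, ∀ d₂' ∈ Ico B (2 * B),
      ∀ k' ∈ Kr H, (if Del d₂ d₂' k k' ≠ 0 then
      Real.sqrt (Int.gcd (Del d₂ d₂' k k') (d * d₂.lcm d₂' : ℕ)) else 0) ≤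
      (if Del d₂ d₂' k k' ≠ 0 then (((Del d₂ d₂' k k').natAbs.gcd d : ℕ) : ℝ) else 0) *
      ((((k.natAbs * d₂').gcd d₂ : ℕ) : ℝ) + (((k'.natAbs * d₂).gcd d₂' : ℕ) : ℝ)) / 2 := by
    intro d hd d₂ hd₂ k hk d₂' hd₂' k' hk'
    rw [mem_Ico] at hd hd₂ hd₂'
    split_ifs with hne
    · have h1 := GCS_gcd d d₂ d₂' k k' (by omega) (by omega)
      have h2 : ((Int.gcd (Del d₂ d₂' k k') (d * d₂.lcm d₂' : ℕ) : ℕ) : ℝ) ≤
          (((Del d₂ d₂' k k').natAbs.gcd d : ℕ) : ℝ) *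
          ((((k.natAbs * d₂').gcd d₂ : ℕ) : ℝ) * (((k'.natAbs * d₂).gcd d₂' : ℕ) : ℝ)) := by
        exact_mod_cast h1
      have p1 : (1 : ℝ) ≤ (((Del d₂ d₂' k k').natAbs.gcd d : ℕ) : ℝ) := by
        have : 0 < (Del d₂ d₂' k k').natAbs.gcd d := Nat.gcd_pos_of_pos_right _ (by omega)
        exact_mod_cast this
      generalize (((Del d₂ d₂' k k').natAbs.gcd d : ℕ) : ℝ) = g at h2 p1 ⊢
      have p2 : (0 : ℝ) ≤ (((k.natAbs * d₂').gcd d₂ : ℕ) : ℝ) := Nat.cast_nonneg _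
      have p3 : (0 : ℝ) ≤ (((k'.natAbs * d₂).gcd d₂' : ℕ) : ℝ) := Nat.cast_nonneg _
      generalize (((k.natAbs * d₂').gcd d₂ : ℕ) : ℝ) = u at h2 p2 ⊢
      generalize (((k'.natAbs * d₂).gcd d₂' : ℕ) : ℝ) = v at h2 p3 ⊢
      apply Real.sqrt_le_iff.mpr
      constructor
      · positivity
      · refine h2.trans ?_
        have h3 : u * v ≤ ((u + v) / 2) ^ 2 := by nlinarith [sq_nonneg (u - v)]
        have h4 : g ≤ g ^ 2 := by nlinarith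
        calc g * (u * v) ≤ g ^ 2 * ((u + v) / 2) ^ 2 :=
              mul_le_mul h4 h3 (mul_nonneg p2 p3) (by positivity)
          _ = (g * (u + v) / 2) ^ 2 := by ring
    · rw [zero_mul, zero_div]
  -- sum over `d`
  have hd : ∀ d₂ ∈ Ico B (2 * B), ∀ k ∈ Kr H, ∀ d₂' ∈ Ico B (2 * B), ∀ k' ∈ Kr H,
      ∑ d ∈ Ico A (2 * A),
        (if Del d₂ d₂' k k' ≠ 0 then (((Del d₂ d₂' k k').natAbs.gcd d : ℕ) : ℝ) else 0) ≤
        3 * A * M := by
    intro d₂ hd₂ k hk d₂' hd₂' k' hk'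
    rw [mem_Ico] at hd₂ hd₂'
    by_cases hne : Del d₂ d₂' k k' ≠ 0
    · simp only [if_pos hne]
      exact hsum _ A (Int.natAbs_pos.mpr hne) (GCS_del _ _ _ _ _ _ (GCS_mem hk).2 (GCS_mem hk').2
        hd₂.2 hd₂'.2) hA
    · simp only [if_neg hne, Finset.sum_const_zero]
      positivity
  have hcard : ((Kr H).card : ℝ) = 2 * H := by rw [GCS_card]; push_cast; ring
  -- sum over `d₂`
  have hu : ∑ d₂ ∈ Ico B (2 * B), ∑ k ∈ Kr H, ∑ d₂' ∈ Ico B (2 * B), ∑ k' ∈ Kr H,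
      (((k.natAbs * d₂').gcd d₂ : ℕ) : ℝ) ≤ 12 * (H * B) ^ 2 * M := by
    rw [Finset.sum_comm]
    have h1 : ∀ k ∈ Kr H, ∑ d₂ ∈ Ico B (2 * B), ∑ d₂' ∈ Ico B (2 * B), ∑ k' ∈ Kr H,
        (((k.natAbs * d₂').gcd d₂ : ℕ) : ℝ) ≤ B * (2 * H * (3 * B * M)) := by
      intro k hk
      rw [Finset.sum_comm]
      have h2 : ∀ d₂' ∈ Ico B (2 * B), ∑ d₂ ∈ Ico B (2 * B), ∑ k' ∈ Kr H,
          (((k.natAbs * d₂').gcd d₂ : ℕ) : ℝ) ≤ 2 * H * (3 * B * M) := by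
        intro d₂' hd₂'
        rw [mem_Ico] at hd₂'
        simp only [Finset.sum_const, nsmul_eq_mul, hcard]
        rw [← Finset.mul_sum]
        refine mul_le_mul_of_nonneg_left ?_ (by positivity)
        apply hsum _ B (Nat.mul_pos (GCS_mem hk).1 (by omega)) _ hB
        calc k.natAbs * d₂' ≤ H * (2 * B) := Nat.mul_le_mul (GCS_mem hk).2 hd₂'.2.le
          _ ≤ 4 * (H * B) := by nlinarith [Nat.zero_le (H * B)]
      refine (Finset.sum_le_sum h2).trans ?_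
      rw [Finset.sum_const, Nat.card_Ico, nsmul_eq_mul]
      apply le_of_eq
      congr 1
      have : 2 * B - B = B := by omega
      rw [this]
    refine (Finset.sum_le_sum h1).trans ?_
    rw [Finset.sum_const, nsmul_eq_mul, hcard]
    apply le_of_eq
    ring
  have hv : ∑ d₂ ∈ Ico B (2 * B), ∑ k ∈ Kr H, ∑ d₂' ∈ Ico B (2 * B), ∑ k' ∈ Kr H,
      (((k'.natAbs * d₂).gcd d₂' : ℕ) : ℝ) ≤ 12 * (H * B) ^ 2 * M := by
    have h1 : ∀ d₂ ∈ Ico B (2 * B), ∑ k ∈ Kr H, ∑ d₂' ∈ Ico B (2 * B), ∑ k' ∈ Kr H,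
        (((k'.natAbs * d₂).gcd d₂' : ℕ) : ℝ) ≤ 2 * H * (2 * H * (3 * B * M)) := by
      intro d₂ hd₂
      rw [mem_Ico] at hd₂
      rw [Finset.sum_const, nsmul_eq_mul, hcard]
      refine mul_le_mul_of_nonneg_left ?_ (by positivity)
      rw [Finset.sum_comm]
      have h2 : ∀ k' ∈ Kr H, ∑ d₂' ∈ Ico B (2 * B), (((k'.natAbs * d₂).gcd d₂' : ℕ) : ℝ) ≤
          3 * B * M := by
        intro k' hk'
        apply hsum _ B (Nat.mul_pos (GCS_mem hk').1 (by omega)) _ hB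
        calc k'.natAbs * d₂ ≤ H * (2 * B) := Nat.mul_le_mul (GCS_mem hk').2 hd₂.2.le
          _ ≤ 4 * (H * B) := by nlinarith [Nat.zero_le (H * B)]
      refine (Finset.sum_le_sum h2).trans ?_
      rw [Finset.sum_const, nsmul_eq_mul, hcard]
    refine (Finset.sum_le_sum h1).trans ?_
    rw [Finset.sum_const, Nat.card_Ico, nsmul_eq_mul]
    have : 2 * B - B = B := by omega
    rw [this]
    apply le_of_eq
    ring
  -- assembly
  have step1 : ∑ d ∈ Ico A (2 * A), ∑ d₂ ∈ Ico B (2 * B), ∑ k ∈ Kr H, ∑ d₂' ∈ Ico B (2 * B),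
      ∑ k' ∈ Kr H, (if Del d₂ d₂' k k' ≠ 0 then
      Real.sqrt (Int.gcd (Del d₂ d₂' k k') (d * d₂.lcm d₂' : ℕ)) else 0) ≤
      ∑ d ∈ Ico A (2 * A), ∑ d₂ ∈ Ico B (2 * B), ∑ k ∈ Kr H, ∑ d₂' ∈ Ico B (2 * B),
      ∑ k' ∈ Kr H,
      (if Del d₂ d₂' k k' ≠ 0 then (((Del d₂ d₂' k k').natAbs.gcd d : ℕ) : ℝ) else 0) *
      ((((k.natAbs * d₂').gcd d₂ : ℕ) : ℝ) + (((k'.natAbs * d₂).gcd d₂' : ℕ) : ℝ)) / 2 := by
    refine Finset.sum_le_sum fun d hd => Finset.sum_le_sum fun d₂ hd₂ => Finset.sum_le_sum fun k hk =>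
      Finset.sum_le_sum fun d₂' hd₂' => Finset.sum_le_sum fun k' hk' => ?_
    exact hterm d hd d₂ hd₂ k hk d₂' hd₂' k' hk'
  refine step1.trans ?_
  have step2 : ∑ d ∈ Ico A (2 * A), ∑ d₂ ∈ Ico B (2 * B), ∑ k ∈ Kr H, ∑ d₂' ∈ Ico B (2 * B),
      ∑ k' ∈ Kr H,
      (if Del d₂ d₂' k k' ≠ 0 then (((Del d₂ d₂' k k').natAbs.gcd d : ℕ) : ℝ) else 0) *
      ((((k.natAbs * d₂').gcd d₂ : ℕ) : ℝ) + (((k'.natAbs * d₂).gcd d₂' : ℕ) : ℝ)) / 2 =
      ∑ d₂ ∈ Ico B (2 * B), ∑ k ∈ Kr H, ∑ d₂' ∈ Ico B (2 * B), ∑ k' ∈ Kr H,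
      (∑ d ∈ Ico A (2 * A),
        (if Del d₂ d₂' k k' ≠ 0 then (((Del d₂ d₂' k k').natAbs.gcd d : ℕ) : ℝ) else 0)) *
      (((((k.natAbs * d₂').gcd d₂ : ℕ) : ℝ) + (((k'.natAbs * d₂).gcd d₂' : ℕ) : ℝ)) / 2) := by
    rw [Finset.sum_comm]
    refine Finset.sum_congr rfl fun d₂ _ => ?_
    rw [Finset.sum_comm]
    refine Finset.sum_congr rfl fun k _ => ?_
    rw [Finset.sum_comm]
    refine Finset.sum_congr rfl fun d₂' _ => ?_
    rw [Finset.sum_comm]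
    refine Finset.sum_congr rfl fun k' _ => ?_
    rw [Finset.sum_mul]
    refine Finset.sum_congr rfl fun d _ => ?_
    rw [mul_div_assoc]
  rw [step2]
  have step3 : ∑ d₂ ∈ Ico B (2 * B), ∑ k ∈ Kr H, ∑ d₂' ∈ Ico B (2 * B), ∑ k' ∈ Kr H,
      (∑ d ∈ Ico A (2 * A),
        (if Del d₂ d₂' k k' ≠ 0 then (((Del d₂ d₂' k k').natAbs.gcd d : ℕ) : ℝ) else 0)) *
      (((((k.natAbs * d₂').gcd d₂ : ℕ) : ℝ) + (((k'.natAbs * d₂).gcd d₂' : ℕ) : ℝ)) / 2) ≤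
      ∑ d₂ ∈ Ico B (2 * B), ∑ k ∈ Kr H, ∑ d₂' ∈ Ico B (2 * B), ∑ k' ∈ Kr H,
      ((3 * A * M) / 2 * (((k.natAbs * d₂').gcd d₂ : ℕ) : ℝ) +
        (3 * A * M) / 2 * (((k'.natAbs * d₂).gcd d₂' : ℕ) : ℝ)) := by
    refine Finset.sum_le_sum fun d₂ hd₂ => Finset.sum_le_sum fun k hk =>
      Finset.sum_le_sum fun d₂' hd₂' => Finset.sum_le_sum fun k' hk' => ?_
    have h1 := hd d₂ hd₂ k hk d₂' hd₂' k' hk'
    have p2 : (0 : ℝ) ≤ (((k.natAbs * d₂').gcd d₂ : ℕ) : ℝ) := Nat.cast_nonneg _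
    have p3 : (0 : ℝ) ≤ (((k'.natAbs * d₂).gcd d₂' : ℕ) : ℝ) := Nat.cast_nonneg _
    generalize (((k.natAbs * d₂').gcd d₂ : ℕ) : ℝ) = u at p2 ⊢
    generalize (((k'.natAbs * d₂).gcd d₂' : ℕ) : ℝ) = v at p3 ⊢
    calc _ ≤ (3 * A * M) * ((u + v) / 2) := mul_le_mul_of_nonneg_right h1 (by positivity)
      _ = _ := by ring
  refine step3.trans ?_
  simp only [Finset.sum_add_distrib, ← Finset.mul_sum]
  have hA0 : (0 : ℝ) ≤ 3 * A * M / 2 := by positivity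
  have hfin : (3 * A * M) / 2 * (12 * (H * B) ^ 2 * M) + (3 * A * M) / 2 * (12 * (H * B) ^ 2 * M) =
      36 * C ^ 2 * 4 ^ (eps / 2) * X ^ eps * A * (H * B) ^ 2 := by
    have hMM : M ^ 2 = C ^ 2 * (4 ^ (eps / 2) * X ^ eps) := by
      rw [hM, mul_pow]
      congr 1
      rw [← Real.rpow_natCast, ← Real.rpow_mul (by positivity), Real.mul_rpow (by norm_num) (by positivity)]
      have e1 : eps / 4 * ((2 : ℕ) : ℝ) = eps / 2 := by push_cast; ring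
      rw [e1]
      congr 1
      rw [← Real.rpow_natCast, ← Real.rpow_mul hX0.le]
      congr 1
      push_cast
      ring
    calc _ = 36 * A * (H * B) ^ 2 * M ^ 2 := by ring
      _ = _ := by rw [hMM]; ring
  rw [← hfin]
  exact add_le_add (mul_le_mul_of_nonneg_left hu hA0) (mul_le_mul_of_nonneg_left hv hA0)

end Pool.Agent.PT
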